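import Pool.Agent.X64.Fast.Basic

set_option autoImplicit false

/-!
# A word over six letters at cutting distance seven from the shuffle squares

The word `0111022210000234444533345554` over six letters is the concatenation of two words `U`, `V`
over three letters each, both at cutting distance three. A rearrangement of the concatenation that
uses six cuts restricts to rearrangements of `U` and `V`; so it uses three cuts in `U`, three cuts
in `V` and none between them. The finitely many remaining cases are checked by the kernel.
-/

namespace Pool.Agent.Results.MP_df1ab4_co.CutSeven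

open Pool.Agent.X64.Fast

/-- The subword of `W` on the positions that carry the mark `b` in the list `M` of marks. -/
def marked {α : Type} (W : List α) (M : List Bool) (b : Bool) : List α :=
  ((W.zip M).filter (fun p => p.2 == b)).map Prod.fst

/-- `W` is a shuffle square: its positions split into two disjoint sets (marked `true` and
`false`) whose subwords are equal. -/
def IsShuffleSquare {α : Type} (W : List α) : Prop :=
  ∃ M : List Bool, M.length = W.length ∧ marked W M true = marked W M false

/-- `W` can be cut `c` times into `c + 1` consecutive blocks that can be reordered so that their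
concatenation is a shuffle square. -/
def Cuts {α : Type} (W : List α) (c : ℕ) : Prop :=
  ∃ B : Fin (c + 1) → List α, (List.ofFn B).flatten = W ∧
    ∃ π : Equiv.Perm (Fin (c + 1)), IsShuffleSquare (List.ofFn (fun i => B (π i))).flatten

/-- The cutting distance of `W`. -/
noncomputable def cuttingDistance {α : Type} (W : List α) : ℕ := sInf {c | Cuts W c}

section marked

variable {α : Type}

theorem marked_cons (x : α) (b : Bool) (W : List α) (M : List Bool) (c : Bool) :
    marked (x :: W) (b :: M) c = if b == c then x :: marked W M c else marked W M c := by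
  unfold marked
  rw [List.zip_cons_cons, List.filter_cons]
  by_cases h : (b == c) = true
  · rw [if_pos h, if_pos h, List.map_cons]
  · rw [if_neg h, if_neg h]

theorem marked_nil (M : List Bool) (c : Bool) : marked ([] : List α) M c = [] := by
  simp [marked]

theorem length_marked : ∀ (W : List α) (M : List Bool), M.length = W.length →
    (marked W M true).length + (marked W M false).length = W.length
  | [], M, _ => by simp [marked_nil]
  | x :: W, [], h => by simp at h
  | x :: W, b :: M, h => by
    have ih := length_marked W M (by simpa using h)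
    cases b
    · simp only [marked_cons]
      simp
      omega
    · simp only [marked_cons]
      simp
      omega

theorem marked_map_not : ∀ (W : List α) (M : List Bool), M.length = W.length → ∀ c : Bool,
    marked W (M.map not) c = marked W M (!c)
  | [], M, _, c => by simp [marked_nil]
  | x :: W, [], h, c => by simp at h
  | x :: W, b :: M, h, c => by
    have ih := marked_map_not W M (by simpa using h) c
    rw [List.map_cons, marked_cons, marked_cons, ih]
    cases b <;> cases c <;> rfl

theorem marked_map {β : Type} (f : α → β) : ∀ (W : List α) (M : List Bool) (c : Bool),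
    marked (W.map f) M c = (marked W M c).map f
  | [], M, c => by simp [marked_nil]
  | x :: W, [], c => by simp [marked]
  | x :: W, b :: M, c => by
    have ih := marked_map f W M c
    rw [List.map_cons, marked_cons, marked_cons, ih]
    split_ifs <;> rfl

theorem marked_filter (f : α → Bool) : ∀ (W : List α) (M : List Bool), M.length = W.length →
    ∃ N : List Bool, N.length = (W.filter f).length ∧
      ∀ c, marked (W.filter f) N c = (marked W M c).filter f
  | [], M, _ => ⟨[], by simp, fun c => by simp [marked_nil]⟩
  | x :: W, [], h => by simp at h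
  | x :: W, b :: M, h => by
    obtain ⟨N, hN, hc⟩ := marked_filter f W M (by simpa using h)
    by_cases hx : f x = true
    · refine ⟨b :: N, by simp [hx, hN], fun c => ?_⟩
      rw [List.filter_cons, if_pos hx, marked_cons, marked_cons, hc]
      split_ifs
      · rw [List.filter_cons, if_pos hx]
      · rfl
    · refine ⟨N, by simp [hx, hN], fun c => ?_⟩
      rw [List.filter_cons, if_neg hx, marked_cons, hc]
      split_ifs
      · rw [List.filter_cons, if_neg hx]
      · rfl

theorem square_map {β : Type} (f : α → β) {W : List α} (h : IsShuffleSquare W) :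
    IsShuffleSquare (W.map f) := by
  obtain ⟨M, hM, hm⟩ := h
  exact ⟨M, by rw [List.length_map, hM], by rw [marked_map, marked_map, hm]⟩

theorem square_filter (f : α → Bool) {W : List α} (h : IsShuffleSquare W) :
    IsShuffleSquare (W.filter f) := by
  obtain ⟨M, hM, hm⟩ := h
  obtain ⟨N, hN, hc⟩ := marked_filter f W M hM
  exact ⟨N, hN, by rw [hc, hc, hm]⟩

end marked

/-! ### The test -/

/-- Lists `w` from which, with the letters `q` still to be repeated, the test can be completed. -/
def QQ (w q : List ℕ) : Prop :=
  ∃ M : List Bool, M.length = w.length ∧ q ++ marked w M true = marked w M false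

theorem QQ.step {x : ℕ} {w q : List ℕ} (h : QQ (x :: w) q) :
    QQ w (q ++ [x]) ∨ ∃ q', q = x :: q' ∧ QQ w q' := by
  obtain ⟨M, hM, hm⟩ := h
  cases M with
  | nil => simp at hM
  | cons b M =>
    have hM' : M.length = w.length := by simpa using hM
    cases b with
    | true =>
      left
      refine ⟨M, hM', ?_⟩
      have h1 : marked (x :: w) (true :: M) true = x :: marked w M true := by
        rw [marked_cons]; rfl
      have h2 : marked (x :: w) (true :: M) false = marked w M false := by
        rw [marked_cons]; rfl
      rw [h1, h2] at hm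
      rw [← hm]
      simp
    | false =>
      have h1 : marked (x :: w) (false :: M) true = marked w M true := by
        rw [marked_cons]; rfl
      have h2 : marked (x :: w) (false :: M) false = x :: marked w M false := by
        rw [marked_cons]; rfl
      rw [h1, h2] at hm
      cases q with
      | nil =>
        left
        refine ⟨M.map not, by rw [List.length_map, hM'], ?_⟩
        rw [marked_map_not w M hM', marked_map_not w M hM']
        simpa using hm.symm
      | cons y q =>
        right
        rw [List.cons_append] at hm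
        injection hm with hy hq
        exact ⟨q, by rw [hy], M, hM', hq⟩

theorem QQ.length {w q : List ℕ} (h : QQ w q) : q.length ≤ w.length := by
  obtain ⟨M, hM, hm⟩ := h
  have h1 := length_marked w M hM
  have h2 := congrArg List.length hm
  rw [List.length_append] at h2
  omega

/-- Reversing onto an accumulator. -/
noncomputable def rv (l : List ℕ) : List ℕ → List ℕ :=
  @List.rec ℕ (fun _ => List ℕ → List ℕ) (fun acc => acc) (fun x _ ih acc => ih (x :: acc)) l

theorem rv_eq (l : List ℕ) : ∀ acc, rv l acc = l.reverse ++ acc := by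
  induction l with
  | nil => intro acc; rfl
  | cons x l ih =>
    intro acc
    have h : rv (x :: l) acc = rv l (x :: acc) := rfl
    rw [h, ih]
    simp

/-- The first letter of the queue `F ++ B.reverse` is `x` and the rest passes `k`. -/
noncomputable def pop (x : ℕ) (F B : List ℕ) (k : List ℕ → List ℕ → Bool) : Bool :=
  @List.rec ℕ (fun _ => Bool)
    (@List.rec ℕ (fun _ => Bool) false (fun y l _ => an (Nat.beq x y) (k l [])) (rv B []))
    (fun y l _ => an (Nat.beq x y) (k l B)) F

/-- The test for shuffle squares: `F ++ B.reverse` is the queue of letters still to be repeated and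
`h` letters can still be added to it. -/
noncomputable def tst (w : List ℕ) : List ℕ → List ℕ → ℕ → Bool :=
  @List.rec ℕ (fun _ => List ℕ → List ℕ → ℕ → Bool) (fun _ _ _ => true)
    (fun x _ ih F B h => orr (pop x F B (fun F' B' => ih F' B' h))
      (@Nat.rec (fun _ => Bool) false (fun h' _ => ih F (x :: B) h') h)) w

theorem pop_of {x : ℕ} {F B q' : List ℕ} {k : List ℕ → List ℕ → Bool}
    (h : F ++ B.reverse = x :: q') (hk : ∀ F' B', F' ++ B'.reverse = q' → k F' B' = true) :
    pop x F B k = true := by
  cases F with
  | nil =>
    have h1 : rv B [] = x :: q' := by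
      rw [rv_eq]
      simpa using h
    have h2 : pop x [] B k =
        @List.rec ℕ (fun _ => Bool) false (fun y l _ => an (Nat.beq x y) (k l [])) (rv B []) := rfl
    rw [h2, h1]
    exact an_iff.2 ⟨Nat.beq_refl x, hk _ _ (by simp)⟩
  | cons y F =>
    rw [List.cons_append] at h
    injection h with h1 h2
    subst h1
    exact an_iff.2 ⟨Nat.beq_refl y, hk _ _ h2⟩

theorem tst_of : ∀ (w F B : List ℕ) (h : ℕ), QQ w (F ++ B.reverse) →
    w.length = 2 * h + (F ++ B.reverse).length → tst w F B h = true
  | [], F, B, h, _, _ => rfl
  | x :: w, F, B, h, hQ, hl => by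
    have e : tst (x :: w) F B h = orr (pop x F B (fun F' B' => tst w F' B' h))
      (@Nat.rec (fun _ => Bool) false (fun h' _ => tst w F (x :: B) h') h) := rfl
    rw [e, orr_iff]
    rw [List.length_cons] at hl
    rcases hQ.step with h1 | ⟨q', hq, h1⟩
    · right
      have h2 := h1.length
      rw [List.length_append, List.length_singleton] at h2
      cases h with
      | zero => omega
      | succ h =>
        have h3 : F ++ (x :: B).reverse = (F ++ B.reverse) ++ [x] := by simp
        refine tst_of w F (x :: B) h (by rw [h3]; exact h1) ?_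
        rw [h3, List.length_append, List.length_singleton]
        omega
    · left
      refine pop_of hq (fun F' B' hq' => tst_of w F' B' h (by rw [hq']; exact h1) ?_)
      rw [hq']
      rw [hq, List.length_cons] at hl
      omega

theorem tst_of_square {w : List ℕ} {h : ℕ} (hw : w.length = 2 * h) (hs : IsShuffleSquare w) :
    tst w [] [] h = true :=
  tst_of w [] [] h (by obtain ⟨M, hM, hm⟩ := hs; exact ⟨M, hM, by simpa using hm⟩) (by simpa using hw)

/-! ### Arrangements of blocks -/

/-- The concatenation of the blocks `K` in the order `p`. -/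
def wordOf (K : List (List ℕ)) (p : List ℕ) : List ℕ := (p.map (fun i => K.getD i [])).flatten

theorem wordOf_cons (K : List (List ℕ)) (i : ℕ) (p : List ℕ) :
    wordOf K (i :: p) = K.getD i [] ++ wordOf K p := by
  rw [wordOf, wordOf, List.map_cons, List.flatten_cons]

theorem wordOf_nil (K : List (List ℕ)) : wordOf K [] = [] := rfl

theorem wordOf_append (K : List (List ℕ)) (p q : List ℕ) :
    wordOf K (p ++ q) = wordOf K p ++ wordOf K q := by
  rw [wordOf, wordOf, wordOf, List.map_append, List.flatten_append]

theorem map_getD_range (K : List (List ℕ)) :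
    (List.range K.length).map (fun i => K.getD i []) = K := by
  apply List.ext_getElem
  · rw [List.length_map, List.length_range]
  · intro i h1 h2
    rw [List.getElem_map, List.getElem_range, List.getD_eq_getElem _ _ h2]

theorem wordOf_perm {K : List (List ℕ)} {p : List ℕ} (hp : p.Perm (List.range K.length)) :
    (wordOf K p).Perm K.flatten := by
  have h := (hp.map (fun i => K.getD i [])).flatten
  rw [map_getD_range] at h
  exact h

theorem exists_perm_map {α β : Type} (f : α → β) {m l' : List β} (h : m.Perm l') :
    ∀ l : List α, l.map f = m → ∃ p : List α, p.Perm l ∧ p.map f = l' := by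
  induction h with
  | nil => intro l hl; exact ⟨l, List.Perm.refl _, hl⟩
  | cons x _ ih =>
    intro l hl
    cases l with
    | nil => simp at hl
    | cons a l =>
      rw [List.map_cons] at hl
      injection hl with h1 h2
      obtain ⟨p, hp, hm⟩ := ih l h2
      exact ⟨a :: p, hp.cons a, by rw [List.map_cons, hm, h1]⟩
  | swap x y k =>
    intro l hl
    match l, hl with
    | [], hl => simp at hl
    | [a], hl => simp at hl
    | a :: b :: l, hl =>
      rw [List.map_cons, List.map_cons] at hl
      injection hl with h1 h2
      injection h2 with h2 h3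
      exact ⟨b :: a :: l, List.Perm.swap a b l, by rw [List.map_cons, List.map_cons, h1, h2, h3]⟩
  | trans _ _ ih1 ih2 =>
    intro l hl
    obtain ⟨p, hp, hm⟩ := ih1 l hl
    obtain ⟨q, hq, hm'⟩ := ih2 p hm
    exact ⟨q, hq.trans hp, hm'⟩

/-- A list of blocks of `U ++ V` is cut at the end of `U`. -/
theorem cut_at {V : List ℕ} : ∀ (L : List (List ℕ)) (U : List ℕ), L ≠ [] → L.flatten = U ++ V →
    ∃ (L1 : List (List ℕ)) (a b : List ℕ) (L2 : List (List ℕ)), L = L1 ++ (a ++ b) :: L2 ∧
      L1.flatten ++ a = U ∧ b ++ L2.flatten = V
  | [], U, h, _ => absurd rfl h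
  | x :: L, U, _, hf => by
    rw [List.flatten_cons] at hf
    rcases List.append_eq_append_iff.1 hf with ⟨c, hU, hL⟩ | ⟨c, hx, hV⟩
    · by_cases hL0 : L = []
      · subst hL0
        have h1 : c = [] ∧ V = [] := by
          have : c ++ V = [] := by rw [← hL]; rfl
          simpa using this
        refine ⟨[], x, [], [], by simp, ?_, ?_⟩
        · rw [hU, h1.1]; simp
        · rw [h1.2]; rfl
      · obtain ⟨L1, a, b, L2, h1, h2, h3⟩ := cut_at L c hL0 hL
        refine ⟨x :: L1, a, b, L2, by rw [h1]; rfl, ?_, h3⟩
        rw [List.flatten_cons, List.append_assoc, h2, hU]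
    · exact ⟨[], U, c, L, by rw [hx]; rfl, rfl, hV.symm⟩

theorem getD_pad (K : List (List ℕ)) (m i : ℕ) :
    (K ++ List.replicate m []).getD i [] = K.getD i [] := by
  induction K generalizing i with
  | nil =>
    rw [List.nil_append]
    induction m generalizing i with
    | zero => rfl
    | succ m ih =>
      cases i with
      | zero => rfl
      | succ i => exact (ih i).trans rfl
  | cons a K ih =>
    cases i with
    | zero => rfl
    | succ i => exact ih i

theorem wordOf_congr {K K' : List (List ℕ)} (h : ∀ i, K.getD i [] = K'.getD i []) (p : List ℕ) :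
    wordOf K p = wordOf K' p := by
  induction p with
  | nil => rfl
  | cons i p ih => rw [wordOf_cons, wordOf_cons, h, ih]

theorem wordOf_out {K : List (List ℕ)} {p : List ℕ} (h : ∀ i ∈ p, K.length ≤ i) :
    wordOf K p = [] := by
  induction p with
  | nil => rfl
  | cons i p ih =>
    rw [wordOf_cons, ih (fun j hj => h j (List.mem_cons_of_mem _ hj)),
      List.getD_eq_default _ _ (h i List.mem_cons_self)]
    rfl

theorem wordOf_filter_lt (K : List (List ℕ)) (n : ℕ) (hn : K.length ≤ n) (p : List ℕ) :
    wordOf K (p.filter (fun i => decide (i < n))) = wordOf K p := by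
  induction p with
  | nil => rfl
  | cons i p ih =>
    rw [List.filter_cons]
    by_cases hi : i < n
    · rw [if_pos (by simpa using hi), wordOf_cons, wordOf_cons, ih]
    · rw [if_neg (by simpa using hi), wordOf_cons, ih,
        List.getD_eq_default _ _ (by omega)]
      rfl

theorem filter_getU {f : ℕ → Bool} {a b : List ℕ} {L2 : List (List ℕ)} :
    ∀ (L1 : List (List ℕ)), (∀ x ∈ L1.flatten ++ a, f x = true) →
      (∀ x ∈ b ++ L2.flatten, f x = false) → ∀ i : ℕ,
      ((L1 ++ (a ++ b) :: L2).getD i []).filter f = (L1 ++ [a]).getD i []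
  | [], h1, h2, i => by
    cases i with
    | zero =>
      show (a ++ b).filter f = a
      rw [List.filter_append, List.filter_eq_self.2 (fun x hx => h1 x (by simpa using hx)),
        List.filter_eq_nil_iff.2 (fun x hx => by rw [h2 x (by simp [hx])]; exact Bool.false_ne_true)]
      simp
    | succ i =>
      show (L2.getD i []).filter f = ([] : List (List ℕ)).getD i []
      have h3 : ∀ x ∈ L2.getD i [], f x = false := by
        intro x hx
        by_cases hi : i < L2.length
        · rw [List.getD_eq_getElem _ _ hi] at hx
          exact h2 x (List.mem_append_right _ (List.mem_flatten.2 ⟨_, List.getElem_mem hi, hx⟩))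
        · rw [List.getD_eq_default _ _ (by omega)] at hx
          exact absurd hx List.not_mem_nil
      rw [List.filter_eq_nil_iff.2 (fun x hx => by rw [h3 x hx]; exact Bool.false_ne_true)]
      rfl
  | c :: L1, h1, h2, i => by
    cases i with
    | zero =>
      show c.filter f = c
      exact List.filter_eq_self.2 (fun x hx => h1 x (by simp [hx]))
    | succ i =>
      exact filter_getU L1 (fun x hx => h1 x (by
        rw [List.flatten_cons, List.append_assoc]
        exact List.mem_append_right _ hx)) h2 i

theorem filter_getV {f : ℕ → Bool} {a b : List ℕ} {L2 : List (List ℕ)} :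
    ∀ (L1 : List (List ℕ)), (∀ x ∈ L1.flatten ++ a, f x = false) →
      (∀ x ∈ b ++ L2.flatten, f x = true) → ∀ i : ℕ,
      ((L1 ++ (a ++ b) :: L2).getD i []).filter f =
        if L1.length ≤ i then (b :: L2).getD (i - L1.length) [] else []
  | [], h1, h2, i => by
    rw [if_pos (by simp)]
    cases i with
    | zero =>
      show (a ++ b).filter f = b
      rw [List.filter_append, List.filter_eq_nil_iff.2 (fun x hx => by
        rw [h1 x (by simpa using hx)]; exact Bool.false_ne_true),
        List.filter_eq_self.2 (fun x hx => h2 x (by simp [hx]))]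
      rfl
    | succ i =>
      show (L2.getD i []).filter f = L2.getD i []
      apply List.filter_eq_self.2
      intro x hx
      by_cases hi : i < L2.length
      · rw [List.getD_eq_getElem _ _ hi] at hx
        exact h2 x (List.mem_append_right _ (List.mem_flatten.2 ⟨_, List.getElem_mem hi, hx⟩))
      · rw [List.getD_eq_default _ _ (by omega)] at hx
        exact absurd hx List.not_mem_nil
  | c :: L1, h1, h2, i => by
    cases i with
    | zero =>
      rw [if_neg (by simp)]
      show c.filter f = []
      exact List.filter_eq_nil_iff.2 (fun x hx => by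
        rw [h1 x (by simp [hx])]; exact Bool.false_ne_true)
    | succ i =>
      have h := filter_getV (f := f) (a := a) (b := b) (L2 := L2) L1 (fun x hx => h1 x (by
        rw [List.flatten_cons, List.append_assoc]
        exact List.mem_append_right _ hx)) h2 i
      rw [List.cons_append, List.getD_cons_succ, h, List.length_cons]
      by_cases hi : L1.length ≤ i
      · rw [if_pos hi, if_pos (by omega), Nat.add_sub_add_right]
      · rw [if_neg hi, if_neg (by omega)]

theorem filter_wordOf {f : ℕ → Bool} {L K : List (List ℕ)}
    (h : ∀ i, (L.getD i []).filter f = K.getD i []) (p : List ℕ) :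
    (wordOf L p).filter f = wordOf K p := by
  induction p with
  | nil => rfl
  | cons i p ih => rw [wordOf_cons, List.filter_append, h, ih, wordOf_cons]

theorem filter_wordOf' {f : ℕ → Bool} {L K : List (List ℕ)} {t : ℕ}
    (h : ∀ i, (L.getD i []).filter f = if t ≤ i then K.getD (i - t) [] else []) (p : List ℕ) :
    (wordOf L p).filter f =
      wordOf K ((p.filter (fun i => decide (t ≤ i))).map (fun i => i - t)) := by
  induction p with
  | nil => rfl
  | cons i p ih =>
    rw [wordOf_cons, List.filter_append, h, ih, List.filter_cons]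
    by_cases hi : t ≤ i
    · rw [if_pos hi, if_pos (by simpa using hi), List.map_cons, wordOf_cons]
    · rw [if_neg hi, if_neg (by simpa using hi), List.nil_append]

/-! ### Functions for the kernel -/

/-- The block number `i`. -/
noncomputable def nth (K : List (List ℕ)) : ℕ → List ℕ :=
  @List.rec (List ℕ) (fun _ => ℕ → List ℕ) (fun _ => [])
    (fun a _ ih i => @Nat.rec (fun _ => List ℕ) a (fun m _ => ih m) i) K

theorem nth_eq (K : List (List ℕ)) : ∀ i, nth K i = K.getD i [] := by
  induction K with
  | nil => intro i; rfl
  | cons a K ih =>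
    intro i
    cases i with
    | zero => rfl
    | succ i => exact ih i

/-- The concatenation of the blocks `K` in the order opposite to `r`. -/
noncomputable def wr (K : List (List ℕ)) (r : List ℕ) : List ℕ → List ℕ :=
  @List.rec ℕ (fun _ => List ℕ → List ℕ) (fun acc => acc)
    (fun i _ ih acc => ih (rv (rv (nth K i) []) acc)) r

theorem wr_eq (K : List (List ℕ)) (r : List ℕ) : ∀ acc, wr K r acc = wordOf K r.reverse ++ acc := by
  induction r with
  | nil => intro acc; rfl
  | cons i r ih =>
    intro acc
    have h : wr K (i :: r) acc = wr K r (rv (rv (nth K i) []) acc) := rfl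
    rw [h, ih, rv_eq, rv_eq, nth_eq, List.reverse_cons, wordOf_append, wordOf_cons, wordOf_nil]
    simp

/-- Removing the first `x`. -/
noncomputable def er (x : ℕ) (l : List ℕ) : List ℕ :=
  @List.rec ℕ (fun _ => List ℕ) []
    (fun y l ih => @Bool.rec (fun _ => List ℕ) (y :: ih) l (Nat.beq x y)) l

theorem er_eq (x : ℕ) (l : List ℕ) : er x l = l.erase x := by
  induction l with
  | nil => rfl
  | cons y l ih =>
    have h : er x (y :: l) = @Bool.rec (fun _ => List ℕ) (y :: er x l) l (Nat.beq x y) := rfl
    rw [h]
    by_cases hxy : x = y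
    · subst hxy
      rw [show Nat.beq x x = true from Nat.beq_refl x, List.erase_cons_head]
    · rw [show Nat.beq x y = false from by
        rw [← Bool.not_eq_true]
        exact fun h => hxy (Nat.eq_of_beq_eq_true h), ih, List.erase_cons_tail (by
          simpa using fun h => hxy h.symm)]

/-- All reversed arrangements of `n` elements. -/
noncomputable def allp (f : List ℕ → Bool) (n : ℕ) : List ℕ → List ℕ → Bool :=
  @Nat.rec (fun _ => List ℕ → List ℕ → Bool) (fun _ acc => f acc)
    (fun _ ih rem acc => al (fun x => ih (er x rem) (x :: acc)) rem) n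

theorem allp_spec {f : List ℕ → Bool} : ∀ (n : ℕ) (rem acc : List ℕ), allp f n rem acc = true →
    ∀ p : List ℕ, p.Perm rem → p.length = n → f (p.reverse ++ acc) = true
  | 0, rem, acc, h, p, hp, hn => by
    rw [List.length_eq_zero_iff.1 hn]
    exact h
  | n + 1, rem, acc, h, p, hp, hn => by
    cases p with
    | nil => simp at hn
    | cons x p =>
      have h1 : al (fun x => allp f n (er x rem) (x :: acc)) rem = true := h
      have hx := List.cons_perm_iff_perm_erase.1 hp
      have h2 := al_iff.1 h1 x hx.1
      rw [er_eq] at h2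
      have h3 := allp_spec n _ _ h2 p hx.2 (by simpa using hn)
      rw [List.reverse_cons, List.append_assoc]
      exact h3

/-- The number with the digits `r` in base `8`. -/
noncomputable def code (r : List ℕ) : ℕ :=
  @List.rec ℕ (fun _ => ℕ) 0 (fun x _ ih => Nat.add x (Nat.mul 8 ih)) r

/-- The code of the part of `r` below `4`. -/
noncomputable def codeU (r : List ℕ) : ℕ :=
  @List.rec ℕ (fun _ => ℕ) 0
    (fun x _ ih => @Bool.rec (fun _ => ℕ) ih (Nat.add x (Nat.mul 8 ih)) (Nat.ble x 3)) r

/-- The code of the part of `r` from `3` on, diminished by `3`. -/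
noncomputable def codeV (r : List ℕ) : ℕ :=
  @List.rec ℕ (fun _ => ℕ) 0
    (fun x _ ih => @Bool.rec (fun _ => ℕ) ih (Nat.add (Nat.sub x 3) (Nat.mul 8 ih))
      (Nat.ble 3 x)) r

theorem codeU_eq (r : List ℕ) : codeU r = code (r.filter (fun i => decide (i < 4))) := by
  induction r with
  | nil => rfl
  | cons x r ih =>
    have h : codeU (x :: r) = @Bool.rec (fun _ => ℕ) (codeU r)
      (Nat.add x (Nat.mul 8 (codeU r))) (Nat.ble x 3) := rfl
    rw [h, List.filter_cons]
    by_cases hx : x < 4
    · rw [show Nat.ble x 3 = true from by rw [Nat.ble_eq]; omega, if_pos (by simpa using hx), ih]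
      rfl
    · rw [show Nat.ble x 3 = false from by
        rw [← Bool.not_eq_true, Nat.ble_eq]; omega, if_neg (by simpa using hx), ih]

theorem codeV_eq (r : List ℕ) :
    codeV r = code ((r.filter (fun i => decide (3 ≤ i))).map (fun i => i - 3)) := by
  induction r with
  | nil => rfl
  | cons x r ih =>
    have h : codeV (x :: r) = @Bool.rec (fun _ => ℕ) (codeV r)
      (Nat.add (Nat.sub x 3) (Nat.mul 8 (codeV r))) (Nat.ble 3 x) := rfl
    rw [h, List.filter_cons]
    by_cases hx : 3 ≤ x
    · rw [show Nat.ble 3 x = true from by rw [Nat.ble_eq]; exact hx, if_pos (by simpa using hx), ih]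
      rfl
    · rw [show Nat.ble 3 x = false from by
        rw [← Bool.not_eq_true, Nat.ble_eq]; omega, if_neg (by simpa using hx), ih]

/-- The first letters. -/
noncomputable def tk (X : List ℕ) : ℕ → List ℕ :=
  @List.rec ℕ (fun _ => ℕ → List ℕ) (fun _ => [])
    (fun a _ ih n => @Nat.rec (fun _ => List ℕ) [] (fun m _ => a :: ih m) n) X

/-- The letters after the first ones. -/
noncomputable def dp (X : List ℕ) : ℕ → List ℕ :=
  @List.rec ℕ (fun _ => ℕ → List ℕ) (fun _ => [])
    (fun a l ih n => @Nat.rec (fun _ => List ℕ) (a :: l) (fun m _ => ih m) n) X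

theorem tk_eq (X : List ℕ) : ∀ n, tk X n = X.take n := by
  induction X with
  | nil => intro n; rw [List.take_nil]; rfl
  | cons a X ih =>
    intro n
    cases n with
    | zero => rfl
    | succ n => exact congrArg (a :: ·) (ih n)

theorem dp_eq (X : List ℕ) : ∀ n, dp X n = X.drop n := by
  induction X with
  | nil => intro n; rw [List.drop_nil]; rfl
  | cons a X ih =>
    intro n
    cases n with
    | zero => rfl
    | succ n => exact ih n

/-- The four blocks of `X` with the given cuts. -/
noncomputable def blk (X : List ℕ) (i j k : ℕ) : List (List ℕ) :=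
  [tk X i, tk (dp X i) (Nat.sub j i), tk (dp X j) (Nat.sub k j), dp X k]

theorem blk_eq (a b c d : List ℕ) : blk (a ++ (b ++ (c ++ d))) a.length (a.length + b.length)
    (a.length + b.length + c.length) = [a, b, c, d] := by
  have e1 : Nat.sub (a.length + b.length) a.length = b.length := Nat.add_sub_cancel_left _ _
  have e2 : Nat.sub (a.length + b.length + c.length) (a.length + b.length) = c.length :=
    Nat.add_sub_cancel_left _ _
  rw [blk, e1, e2, tk_eq, tk_eq, tk_eq, dp_eq, dp_eq, dp_eq]
  have h1 : (a ++ (b ++ (c ++ d))).take a.length = a := List.take_left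
  have h2 : (a ++ (b ++ (c ++ d))).drop a.length = b ++ (c ++ d) := List.drop_left
  have h3 : (a ++ (b ++ (c ++ d))).drop (a.length + b.length) = c ++ d := by
    rw [← List.append_assoc, ← List.length_append]
    exact List.drop_left
  have h4 : (a ++ (b ++ (c ++ d))).drop (a.length + b.length + c.length) = d := by
    rw [← List.append_assoc, ← List.append_assoc, ← List.length_append, ← List.length_append]
    exact List.drop_left
  rw [h1, h2, h3, h4, List.take_left, List.take_left]

/-- The numbers up to `14`. -/
noncomputable def R15 : List ℕ := [0, 1, 2, 3, 4, 5, 6, 7, 8, 9, 10, 11, 12, 13, 14]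

theorem mem_R15 {i : ℕ} (h : i ≤ 14) : i ∈ R15 := by
  unfold R15
  interval_cases i <;> simp

/-- All arrangements of four blocks of `X` that pass the test are in the list `LX`. -/
noncomputable def chk1 (X : List ℕ) (LX : List (ℕ × ℕ × ℕ × ℕ)) : Bool :=
  al (fun i => al (fun j => orr (nt (Nat.ble i j)) (al (fun k => orr (nt (Nat.ble j k))
    (allp (fun r => orr (nt (tst (wr (blk X i j k) r []) [] [] 7))
      (ay (fun e => an (Nat.beq e.1 i) (an (Nat.beq e.2.1 j) (an (Nat.beq e.2.2.1 k)
        (Nat.beq e.2.2.2 (code r))))) LX)) 4 [0, 1, 2, 3] [])) R15)) R15) R15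

/-- The last block of the arrangements in the list is nonempty. -/
noncomputable def chk2 (LX : List (ℕ × ℕ × ℕ × ℕ)) : Bool :=
  al (fun e => nt (Nat.beq e.2.2.1 14)) LX

theorem four {X : List ℕ} {LX : List (ℕ × ℕ × ℕ × ℕ)} (hX : X.length = 14)
    (h : chk1 X LX = true) {a b c d : List ℕ} (hf : a ++ (b ++ (c ++ d)) = X) {p : List ℕ}
    (hp : p.Perm [0, 1, 2, 3]) (hs : IsShuffleSquare (wordOf [a, b, c, d] p)) :
    ∃ e ∈ LX, e.1 = a.length ∧ e.2.1 = a.length + b.length ∧
      e.2.2.1 = a.length + b.length + c.length ∧ e.2.2.2 = code p.reverse := by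
  have hl : a.length + (b.length + (c.length + d.length)) = 14 := by
    rw [← hX, ← hf, List.length_append, List.length_append, List.length_append]
  have h1 := al_iff.1 h a.length (mem_R15 (by omega))
  have h2 := al_iff.1 h1 (a.length + b.length) (mem_R15 (by omega))
  have h3 := (orr_iff.1 h2).resolve_left (by
    rw [nt_iff, Bool.not_eq_false, Nat.ble_eq]
    omega)
  have h4 := al_iff.1 h3 (a.length + b.length + c.length) (mem_R15 (by omega))
  have h5 := (orr_iff.1 h4).resolve_left (by
    rw [nt_iff, Bool.not_eq_false, Nat.ble_eq]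
    omega)
  have h6 := allp_spec 4 _ _ h5 p hp hp.length_eq
  rw [List.append_nil] at h6
  have hw : wr (blk X a.length (a.length + b.length) (a.length + b.length + c.length))
      p.reverse [] = wordOf [a, b, c, d] p := by
    rw [wr_eq, List.append_nil, List.reverse_reverse, ← hf, blk_eq]
  rw [hw] at h6
  have hlen : (wordOf [a, b, c, d] p).length = 2 * 7 := by
    have h7 : p.Perm (List.range [a, b, c, d].length) := hp
    rw [(wordOf_perm h7).length_eq]
    simp only [List.flatten_cons, List.flatten_nil, List.append_nil, List.length_append]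
    omega
  have h7 := (orr_iff.1 h6).resolve_left (by
    rw [nt_iff, Bool.not_eq_false]
    exact tst_of_square hlen hs)
  obtain ⟨e, he, h8⟩ := ay_iff.1 h7
  obtain ⟨h9, h10⟩ := an_iff.1 h8
  obtain ⟨h10, h11⟩ := an_iff.1 h10
  obtain ⟨h11, h12⟩ := an_iff.1 h11
  exact ⟨e, he, Nat.eq_of_beq_eq_true h9, Nat.eq_of_beq_eq_true h10, Nat.eq_of_beq_eq_true h11,
    Nat.eq_of_beq_eq_true h12⟩

theorem three {X : List ℕ} {LX : List (ℕ × ℕ × ℕ × ℕ)} (hX : X.length = 14)
    (h : chk1 X LX = true) (h' : chk2 LX = true) {K : List (List ℕ)} (hK : K.length ≤ 3)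
    (hf : K.flatten = X) {p : List ℕ} (hp : p.Perm (List.range K.length)) :
    ¬ IsShuffleSquare (wordOf K p) := by
  intro hs
  have key : ∀ a b c : List ℕ, a ++ (b ++ (c ++ [])) = X → ∀ q : List ℕ, q.Perm [0, 1, 2, 3] →
      ¬ IsShuffleSquare (wordOf [a, b, c, []] q) := by
    intro a b c hf q hq hs
    obtain ⟨e, he, -, -, h3, -⟩ := four hX h hf hq hs
    have h4 := al_iff.1 h' e he
    rw [nt_iff, ← Bool.not_eq_true] at h4
    have h5 := congrArg List.length hf
    rw [List.length_append, List.length_append, List.length_append, List.length_nil, hX] at h5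
    exact h4 (by rw [h3, show a.length + b.length + c.length = 14 by omega]; rfl)
  match K, hK, hf, hp, hs with
  | [], _, hf, hp, hs =>
    rw [← hf] at hX
    simp at hX
  | [a], _, hf, hp, hs =>
    refine key a [] [] (by simpa using hf) (p ++ [1, 2, 3]) (by
      exact (hp.append_right [1, 2, 3])) ?_
    rw [wordOf_append, wordOf_congr (K := [a, [], [], []]) (K' := [a])
      (fun i => getD_pad [a] 3 i), wordOf_congr (K := [a, [], [], []]) (K' := [a])
      (fun i => getD_pad [a] 3 i), wordOf_out (p := [1, 2, 3]) (by simp), List.append_nil]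
    exact hs
  | [a, b], _, hf, hp, hs =>
    refine key a b [] (by simpa using hf) (p ++ [2, 3]) (by
      exact (hp.append_right [2, 3])) ?_
    rw [wordOf_append, wordOf_congr (K := [a, b, [], []]) (K' := [a, b])
      (fun i => getD_pad [a, b] 2 i), wordOf_congr (K := [a, b, [], []]) (K' := [a, b])
      (fun i => getD_pad [a, b] 2 i), wordOf_out (p := [2, 3]) (by simp), List.append_nil]
    exact hs
  | [a, b, c], _, hf, hp, hs =>
    refine key a b c (by simpa using hf) (p ++ [3]) (by
      exact (hp.append_right [3])) ?_
    rw [wordOf_append, wordOf_congr (K := [a, b, c, []]) (K' := [a, b, c])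
      (fun i => getD_pad [a, b, c] 1 i), wordOf_congr (K := [a, b, c, []]) (K' := [a, b, c])
      (fun i => getD_pad [a, b, c] 1 i), wordOf_out (p := [3]) (by simp), List.append_nil]
    exact hs
  | a :: b :: c :: d :: K, hK, _, _, _ =>
    simp only [List.length_cons] at hK
    omega

/-- The seven blocks of the concatenation. -/
noncomputable def jn (A B : List (List ℕ)) : List (List ℕ) :=
  [nth A 0, nth A 1, nth A 2, rv (rv (nth A 3) []) (nth B 0), nth B 1, nth B 2, nth B 3]

/-- Evaluating an argument first. -/
noncomputable def frc (v : ℕ) (f : ℕ → Bool) : Bool :=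
  @Nat.rec (fun _ => Bool) (f 0) (fun n _ => f (Nat.succ n)) v

theorem frc_eq (v : ℕ) (f : ℕ → Bool) : frc v f = f v := by
  cases v <;> rfl

/-- No common arrangement passes the test. -/
noncomputable def chk3 (U V : List ℕ) (LU LV : List (ℕ × ℕ × ℕ × ℕ)) : Bool :=
  allp (fun r => frc (codeU r) (fun cu => frc (codeV r) (fun cv =>
    al (fun e => orr (nt (Nat.beq e.2.2.2 cu)) (al (fun e' => orr (nt (Nat.beq e'.2.2.2 cv))
      (nt (tst (wr (jn (blk U e.1 e.2.1 e.2.2.1) (blk V e'.1 e'.2.1 e'.2.2.1)) r []) [] [] 14)))
        LV)) LU))) 7 [0, 1, 2, 3, 4, 5, 6] []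

/-- The first half of the word. -/
def UU : List ℕ := [0, 1, 1, 1, 0, 2, 2, 2, 1, 0, 0, 0, 0, 2]

/-- The second half of the word. -/
def VV : List ℕ := [3, 4, 4, 4, 4, 5, 3, 3, 3, 4, 5, 5, 5, 4]

/-- The arrangements of four blocks of `UU`. -/
def LU : List (ℕ × ℕ × ℕ × ℕ) := [(1, 4, 8, 538), (1, 4, 8, 706), (1, 4, 9, 209), (1, 4, 9, 1553), (1, 5, 8, 538),
  (1, 5, 8, 706), (1, 5, 9, 1672), (2, 4, 8, 538), (2, 4, 10, 1672), (2, 5, 8, 538),
  (2, 5, 11, 1672), (2, 6, 7, 538), (2, 6, 13, 706), (2, 7, 10, 720), (2, 7, 10, 1553),
  (2, 7, 11, 538), (2, 7, 11, 1553), (2, 7, 12, 538), (2, 7, 13, 538), (3, 4, 10, 1672),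
  (3, 5, 9, 1672), (3, 5, 11, 1672), (3, 6, 10, 1049), (3, 6, 10, 1112), (3, 6, 11, 1112),
  (3, 7, 10, 1553), (3, 8, 10, 1049), (4, 5, 8, 538), (4, 7, 10, 720), (5, 8, 12, 706)]

/-- The arrangements of four blocks of `VV`. -/
def LV : List (ℕ × ℕ × ℕ × ℕ) := [(1, 7, 12, 538), (1, 8, 12, 706), (2, 6, 9, 706), (2, 7, 12, 538), (3, 7, 12, 538),
  (3, 7, 12, 1112), (3, 8, 11, 1553), (3, 9, 11, 1672), (3, 9, 12, 1672), (4, 6, 11, 1049),
  (4, 7, 10, 1602), (4, 7, 11, 1112), (4, 7, 12, 1112), (4, 7, 12, 1602), (4, 8, 11, 1049),
  (4, 8, 11, 1553), (4, 10, 11, 1672), (4, 10, 12, 1672), (5, 9, 11, 1672), (5, 9, 13, 1672),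
  (5, 10, 13, 1091), (5, 10, 13, 1112), (6, 9, 10, 538), (6, 9, 12, 538), (6, 9, 13, 538),
  (6, 9, 13, 706), (6, 10, 12, 538), (6, 10, 13, 538), (6, 10, 13, 706), (7, 8, 12, 538)]

theorem okU : chk1 UU LU = true := by decide +kernel

theorem okV : chk1 VV LV = true := by decide +kernel

theorem okU' : chk2 LU = true := by decide +kernel

theorem okV' : chk2 LV = true := by decide +kernel

theorem okW : chk3 UU VV LU LV = true := by decide +kernel

/-- No list of seven blocks of `UU ++ VV` has an arrangement that is a shuffle square. -/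
theorem no_seven {L : List (List ℕ)} (hL : L.length = 7) (hf : L.flatten = UU ++ VV)
    {p : List ℕ} (hp : p.Perm (List.range 7)) : ¬ IsShuffleSquare (wordOf L p) := by
  intro hs
  obtain ⟨L1, a, b, L2, h1, h2, h3⟩ := cut_at L UU (by intro h0; rw [h0] at hL; simp at hL) hf
  have hlen : L1.length + L2.length = 6 := by
    rw [h1, List.length_append, List.length_cons] at hL
    omega
  have hU : ∀ x ∈ L1.flatten ++ a, decide (x < 3) = true := by
    rw [h2]; decide
  have hU' : ∀ x ∈ L1.flatten ++ a, decide (3 ≤ x) = false := by
    rw [h2]; decide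
  have hV : ∀ x ∈ b ++ L2.flatten, decide (x < 3) = false := by
    rw [h3]; decide
  have hV' : ∀ x ∈ b ++ L2.flatten, decide (3 ≤ x) = true := by
    rw [h3]; decide
  have sU : IsShuffleSquare (wordOf (L1 ++ [a]) (p.filter (fun i => decide (i < L1.length + 1)))) := by
    rw [wordOf_filter_lt (L1 ++ [a]) (L1.length + 1) (by simp) p,
      ← filter_wordOf (fun i => filter_getU (L2 := L2) (b := b) L1 hU hV i) p, ← h1]
    exact square_filter _ hs
  have sV : IsShuffleSquare (wordOf (b :: L2)
      ((p.filter (fun i => decide (L1.length ≤ i))).map (fun i => i - L1.length))) := by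
    rw [← filter_wordOf' (fun i => filter_getV (L2 := L2) (b := b) L1 hU' hV' i) p, ← h1]
    exact square_filter _ hs
  have pU : (p.filter (fun i => decide (i < L1.length + 1))).Perm
      ((List.range 7).filter (fun i => decide (i < L1.length + 1))) := hp.filter _
  have pV : ((p.filter (fun i => decide (L1.length ≤ i))).map (fun i => i - L1.length)).Perm
      (((List.range 7).filter (fun i => decide (L1.length ≤ i))).map (fun i => i - L1.length)) :=
    (hp.filter _).map _
  have fU : (L1 ++ [a]).flatten = UU := by rw [← h2]; simp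
  have fV : (b :: L2).flatten = VV := by rw [← h3]; simp
  have lU : (L1 ++ [a]).length = L1.length + 1 := by simp
  have lV : (b :: L2).length = 7 - L1.length := by rw [List.length_cons]; omega
  by_cases ht : L1.length = 3
  · -- three cuts in each part
    have hL2 : L2.length = 3 := by omega
    obtain ⟨u0, u1, u2, rfl⟩ := List.length_eq_three.1 ht
    obtain ⟨v1, v2, v3, rfl⟩ := List.length_eq_three.1 hL2
    have pU' : (p.filter (fun i => decide (i < 4))).Perm [0, 1, 2, 3] := pU
    have pV' : ((p.filter (fun i => decide (3 ≤ i))).map (fun i => i - 3)).Perm [0, 1, 2, 3] := pV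
    have gU : u0 ++ (u1 ++ (u2 ++ a)) = UU := by rw [← h2]; simp
    have gV : b ++ (v1 ++ (v2 ++ v3)) = VV := by rw [← h3]; simp
    obtain ⟨e, he, e1, e2, e3, e4⟩ := four (by rfl) okU gU pU' sU
    obtain ⟨e', he', d1, d2, d3, d4⟩ := four (by rfl) okV gV pV' sV
    have h7 := allp_spec 7 _ _ okW p hp hp.length_eq
    rw [List.append_nil, frc_eq, frc_eq] at h7
    have h8 := al_iff.1 h7 e he
    have c1 : codeU p.reverse = e.2.2.2 := by
      rw [codeU_eq, e4, List.filter_reverse]
    have c2 : codeV p.reverse = e'.2.2.2 := by
      rw [codeV_eq, d4, List.filter_reverse, List.map_reverse]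
    have h9 := (orr_iff.1 h8).resolve_left (by
      rw [nt_iff, Bool.not_eq_false, c1]
      exact Nat.beq_refl _)
    have h10 := al_iff.1 h9 e' he'
    have h11 := (orr_iff.1 h10).resolve_left (by
      rw [nt_iff, Bool.not_eq_false, c2]
      exact Nat.beq_refl _)
    rw [nt_iff, e1, e2, e3, d1, d2, d3, wr_eq, List.append_nil, List.reverse_reverse] at h11
    have hj : jn (blk UU u0.length (u0.length + u1.length) (u0.length + u1.length + u2.length))
        (blk VV b.length (b.length + v1.length) (b.length + v1.length + v2.length)) = L := by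
      rw [← gU, ← gV, blk_eq, blk_eq, h1, jn, rv_eq, rv_eq]
      show [u0, u1, u2, (a.reverse ++ []).reverse ++ b, v1, v2, v3] = _
      simp
    rw [hj] at h11
    have hlen2 : (wordOf L p).length = 2 * 14 := by
      rw [(wordOf_perm (by rw [hL]; exact hp)).length_eq, hf]
      rfl
    rw [tst_of_square hlen2 hs] at h11
    exact absurd h11.symm Bool.false_ne_true
  · by_cases ht2 : L1.length ≤ 2
    · refine three (by rfl) okU okU' (by omega) fU ?_ sU
      rw [lU]
      refine pU.trans ?_
      have : L1.length = 0 ∨ L1.length = 1 ∨ L1.length = 2 := by omega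
      rcases this with h | h | h <;> rw [h] <;> exact List.Perm.refl _
    · refine three (by rfl) okV okV' (by omega) fV ?_ sV
      rw [lV]
      refine pV.trans ?_
      have : L1.length = 4 ∨ L1.length = 5 ∨ L1.length = 6 := by omega
      rcases this with h | h | h <;> rw [h] <;> exact List.Perm.refl _

/-- The word of length 28 over six letters. -/
def WW : List (Fin 6) :=
  [0, 1, 1, 1, 0, 2, 2, 2, 1, 0, 0, 0, 0, 2, 3, 4, 4, 4, 4, 5, 3, 3, 3, 4, 5, 5, 5, 4]

theorem not_cuts {c : ℕ} (hc : c ≤ 6) : ¬ Cuts WW c := by
  rintro ⟨B, hB, π, hs⟩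
  have hp : (List.ofFn (fun i => B (π i))).Perm (List.ofFn B) := Equiv.Perm.ofFn_comp_perm π B
  have hW : WW.map Fin.val = UU ++ VV := by decide
  have h1 := square_map Fin.val hs
  have h2 : (((List.ofFn B).map (List.map Fin.val)) ++ List.replicate (6 - c) []).flatten =
      UU ++ VV := by
    rw [List.flatten_append, ← List.map_flatten, hB, hW]
    simp
  have h3 : (((List.ofFn (fun i => B (π i))).map (List.map Fin.val)) ++
      List.replicate (6 - c) []).Perm
      (((List.ofFn B).map (List.map Fin.val)) ++ List.replicate (6 - c) []) :=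
    (hp.map _).append_right _
  have hlen : (((List.ofFn B).map (List.map Fin.val)) ++ List.replicate (6 - c) []).length = 7 := by
    simp
    omega
  obtain ⟨p, hp1, hp2⟩ := exists_perm_map (fun i =>
    (((List.ofFn B).map (List.map Fin.val)) ++ List.replicate (6 - c) []).getD i []) h3.symm
    (List.range 7) (by
      have := map_getD_range (((List.ofFn B).map (List.map Fin.val)) ++ List.replicate (6 - c) [])
      rw [hlen] at this
      exact this)
  refine no_seven hlen h2 hp1 ?_
  rw [wordOf, hp2, List.flatten_append, ← List.map_flatten]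
  have h4 : (List.replicate (6 - c) ([] : List ℕ)).flatten = [] := by simp
  rw [h4, List.append_nil]
  exact h1

theorem cuts_seven : Cuts WW 7 := by
  refine ⟨![[0], [1, 1, 1], [0, 2, 2, 2], [1, 0, 0, 0, 0, 2], [3], [4, 4, 4, 4, 5, 3],
    [3, 3, 4, 5, 5], [5, 4]], by decide,
    ⟨![1, 0, 3, 2, 5, 4, 7, 6], ![1, 0, 3, 2, 5, 4, 7, 6], by decide, by decide⟩, ?_⟩
  refine ⟨[true, false, true, true, false, false, true, false, true, true, false, false, true,
    false, true, false, true, false, true, true, true, false, true, false, false, false, true,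
    false], by decide, by decide⟩

theorem result :
    (∀ a, Even (WW.count a)) ∧ IsLeast {c | Cuts WW c} 7 ∧ cuttingDistance WW = 7 ∧
    ¬ ∀ k ≥ 2, ∀ W : List (Fin k), (∀ a, Even (W.count a)) → cuttingDistance W ≤ k := by
  have h1 : IsLeast {c | Cuts WW c} 7 :=
    ⟨cuts_seven, fun c hc => by
      by_contra h
      exact not_cuts (by omega) hc⟩
  have h2 : cuttingDistance WW = 7 := h1.csInf_eq
  have h3 : ∀ a, Even (WW.count a) := by decide
  refine ⟨h3, h1, h2, fun h => ?_⟩
  have h4 := h 6 (by norm_num) WW h3
  omega

end Pool.Agent.Results.MP_df1ab4_co.CutSeven
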